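import Pool.Agent.P.MP_73fc50_co.G.Final

/-!
In every dimension there is a nonempty open (hence non-meagre) set of o-symmetric convex bodies
all of whose globally densest packing lattices have kissing number exactly `d (d + 1)`.
-/

set_option autoImplicit false

namespace Pool.Agent.Results.MP_73fc50_co.GlobalDensest

open Pool.Agent.P.MP_73fc50_co Pool.Agent.P.MP_73fc50_co.G

/-- On a nonempty open, non-meagre set of o-symmetric convex bodies `C` in `ℝ^d`, a lattice of
maximum packing density exists and every such lattice has kissing number `d (d + 1)`. -/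
theorem result (d : ℕ) (hd : 1 ≤ d) :
    ∃ U : Set {K : ConvexBody (Fin d → ℝ) //
        (∀ x ∈ (K : Set (Fin d → ℝ)), -x ∈ (K : Set (Fin d → ℝ))) ∧
        (interior (K : Set (Fin d → ℝ))).Nonempty},
      IsOpen U ∧ U.Nonempty ∧ ¬ IsMeagre U ∧ ∀ C ∈ U,
        (∃ B, IsDensest (C.1 : Set (Fin d → ℝ)) B) ∧
        ∀ B, IsDensest (C.1 : Set (Fin d → ℝ)) B →
          kiss (C.1 : Set (Fin d → ℝ)) B = d * (d + 1) := by
  obtain ⟨C₀, ε, hε, hs, h⟩ := final hd
  refine ⟨{C | dist C.1 C₀ < ε},
    isOpen_lt (continuous_subtype_val.dist continuous_const) continuous_const,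
    ⟨⟨C₀, hs, (h C₀ (by simpa)).1⟩, by simpa⟩,
    not_isMeagre_ball C₀ hs hε (fun C hC => (h C hC).1) _ (fun C hC => hC),
    fun C hC => (h C.1 hC).2 C.2.1⟩

end Pool.Agent.Results.MP_73fc50_co.GlobalDensest
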